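import Mathlib

set_option autoImplicit false
set_option linter.unusedSectionVars false

/-!
# Project TW: the pieces KIL2 and LIM2 (statements repeated; the file imports only Mathlib)
-/

namespace Pool.Agent.E8helper55.TW

open Matrix Module Filter Topology

/-- **Piece KIL2**: if the Killing form is nondegenerate then there are no abelian ideals. -/
def K2 : Prop := ∀ (n : Type) [Fintype n] [DecidableEq n] (d : ℕ) (u : Fin d → Matrix n n ℂ)
  (_ : LinearIndependent ℂ u) (c : Fin d → Fin d → Fin d → ℂ)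
  (_ : ∀ i j, u i * u j - u j * u i = ∑ l, c i j l • u l)
  (_ : (Matrix.of fun i j => ∑ l, ∑ m, c i l m * c j m l).det ≠ 0)
  (J : Submodule ℂ (Matrix n n ℂ)) (_ : J ≤ Submodule.span ℂ (Set.range u))
  (_ : ∀ y ∈ Submodule.span ℂ (Set.range u), ∀ j ∈ J, y * j - j * y ∈ J)
  (_ : ∀ i ∈ J, ∀ j ∈ J, i * j = j * i), J = ⊥

/-- the statement of LIM2 -/
def K3 : Prop := ∀ (n : Type) [Fintype n] [DecidableEq n] (d : ℕ) (u : Fin d → Matrix n n ℂ)
  (lam : ℝ) (_ : 0 < lam) (_ : ∀ i j, (u i * (u j)ᴴ).trace = if i = j then (lam : ℂ) else 0)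
  (_ : ∑ i, (u i * (u i)ᴴ - (u i)ᴴ * u i) = 0)
  (_ : ∀ i j, u i * u j - u j * u i ∈ Submodule.span ℂ (Set.range u))
  (_ : (Matrix.of fun i j => (u i * u j).trace).det ≠ 0)
  (_ : ∀ J : Submodule ℂ (Matrix n n ℂ), J ≤ Submodule.span ℂ (Set.range u) →
    (∀ y ∈ Submodule.span ℂ (Set.range u), ∀ j ∈ J, y * j - j * y ∈ J) →
    (∀ i ∈ J, ∀ j ∈ J, i * j = j * i) → J = ⊥),
  ∀ i, (u i)ᴴ ∈ Submodule.span ℂ (Set.range u)

theorem kil2 : K2 := by
  intro n _ _ d u hu c hc hdet J hJU hJid hJab
  -- the matrices of the operators `ad (u i)`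
  let A : Fin d → Matrix (Fin d) (Fin d) ℂ := fun i => Matrix.of fun l j => c i j l
  let Φ : (Fin d → ℂ) →ₗ[ℂ] Matrix n n ℂ := Fintype.linearCombination ℂ u
  have hΦ : ∀ v, Φ v = ∑ i, v i • u i := fun v => Fintype.linearCombination_apply ℂ u v
  have hΦinj : ∀ v, Φ v = 0 → v = 0 := by
    intro v hv
    rw [hΦ] at hv
    funext i
    exact (Fintype.linearIndependent_iff.1 hu) v hv i
  have hΦU : ∀ v, Φ v ∈ Submodule.span ℂ (Set.range u) := by
    intro v
    rw [hΦ]
    exact Submodule.sum_mem _ fun i _ => Submodule.smul_mem _ _ (Submodule.subset_span ⟨i, rfl⟩)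
  have hA : ∀ i v, Φ (A i *ᵥ v) = u i * Φ v - Φ v * u i := by
    intro i v
    rw [hΦ, hΦ, Finset.mul_sum, Finset.sum_mul, ← Finset.sum_sub_distrib]
    have h1 : ∀ j, u i * v j • u j - v j • u j * u i = ∑ l, (v j * c i j l) • u l := by
      intro j
      rw [Matrix.mul_smul, Matrix.smul_mul, ← smul_sub, hc, Finset.smul_sum]
      exact Finset.sum_congr rfl fun l _ => by rw [smul_smul]
    rw [Finset.sum_congr rfl fun j _ => h1 j, Finset.sum_comm]
    refine Finset.sum_congr rfl fun l _ => ?_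
    rw [← Finset.sum_smul]
    congr 1
    simp only [A, Matrix.mulVec, dotProduct, Matrix.of_apply]
    exact Finset.sum_congr rfl fun j _ => mul_comm _ _
  rw [eq_bot_iff]
  intro w hw
  rw [Submodule.mem_bot]
  -- coordinates of `w`
  obtain ⟨y, hy⟩ : ∃ y, Φ y = w := by
    have := hJU hw
    rw [← Fintype.range_linearCombination] at this
    exact this
  let Ay : Matrix (Fin d) (Fin d) ℂ := ∑ i, y i • A i
  have hAy : ∀ v, Φ (Ay *ᵥ v) = w * Φ v - Φ v * w := by
    intro v
    have h1 : Ay *ᵥ v = ∑ i, y i • (A i *ᵥ v) := by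
      simp only [Ay]
      rw [Matrix.sum_mulVec]
      exact Finset.sum_congr rfl fun i _ => Matrix.smul_mulVec _ _ _
    rw [h1, map_sum, ← hy, hΦ y, Finset.sum_mul, Finset.mul_sum, ← Finset.sum_sub_distrib]
    refine Finset.sum_congr rfl fun i _ => ?_
    rw [map_smul, hA, Matrix.smul_mul, Matrix.mul_smul, smul_sub]
  have hnil : ∀ j, (Ay * A j) * (Ay * A j) = 0 := by
    intro j
    apply Matrix.toLin'.injective
    refine LinearMap.ext fun v => ?_
    rw [Matrix.toLin'_apply, map_zero, LinearMap.zero_apply]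
    apply hΦinj
    have e : ((Ay * A j) * (Ay * A j)) *ᵥ v = Ay *ᵥ (A j *ᵥ (Ay *ᵥ (A j *ᵥ v))) := by
      simp only [Matrix.mulVec_mulVec, Matrix.mul_assoc]
    rw [e, hAy]
    have h1 : Φ (Ay *ᵥ (A j *ᵥ v)) ∈ J := by
      rw [hAy]
      have := J.neg_mem (hJid _ (hΦU (A j *ᵥ v)) w hw)
      rwa [neg_sub] at this
    have h2 : Φ (A j *ᵥ (Ay *ᵥ (A j *ᵥ v))) ∈ J := by
      rw [hA]
      exact hJid _ (Submodule.subset_span ⟨j, rfl⟩) _ h1
    rw [hJab w hw _ h2, sub_self]
  have htr : ∀ j, (Ay * A j).trace = 0 := by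
    intro j
    have h1 : IsNilpotent (Ay * A j) := ⟨2, by rw [pow_two]; exact hnil j⟩
    exact (Matrix.isNilpotent_trace_of_isNilpotent h1).eq_zero
  have hK : ∀ i j, (A i * A j).trace = ∑ l, ∑ m, c i l m * c j m l := by
    intro i j
    simp only [Matrix.trace, Matrix.diag_apply, Matrix.mul_apply, A, Matrix.of_apply]
    rw [Finset.sum_comm]
  have hvm : Matrix.vecMul y (Matrix.of fun i j => ∑ l, ∑ m, c i l m * c j m l) = 0 := by
    funext j
    rw [Pi.zero_apply, ← htr j]
    simp only [Ay]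
    rw [Finset.sum_mul, Matrix.trace_sum]
    simp only [Matrix.vecMul, dotProduct, Matrix.of_apply]
    refine Finset.sum_congr rfl fun i _ => ?_
    rw [Matrix.smul_mul, Matrix.trace_smul, hK, smul_eq_mul]
  have hy0 := Matrix.eq_zero_of_vecMul_eq_zero hdet hvm
  rw [← hy, hy0, map_zero]

section ip

variable {n : Type} [Fintype n] [DecidableEq n]

/-- the inner product -/
def ip (x y : Matrix n n ℂ) : ℂ := (x * yᴴ).trace

theorem ip_conj (x y : Matrix n n ℂ) : star (ip x y) = ip y x := by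
  unfold ip
  rw [← Matrix.trace_conjTranspose, Matrix.conjTranspose_mul, Matrix.conjTranspose_conjTranspose]

theorem ip_sub_left (x y z : Matrix n n ℂ) : ip (x - y) z = ip x z - ip y z := by
  unfold ip
  rw [Matrix.sub_mul, Matrix.trace_sub]

theorem ip_sub_right (x y z : Matrix n n ℂ) : ip z (x - y) = ip z x - ip z y := by
  unfold ip
  rw [Matrix.conjTranspose_sub, Matrix.mul_sub, Matrix.trace_sub]

theorem ip_smul_left (c : ℂ) (x z : Matrix n n ℂ) : ip (c • x) z = c * ip x z := by
  unfold ip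
  rw [Matrix.smul_mul, Matrix.trace_smul, smul_eq_mul]

theorem ip_smul_right (c : ℂ) (x z : Matrix n n ℂ) : ip z (c • x) = star c * ip z x := by
  unfold ip
  rw [Matrix.conjTranspose_smul, Matrix.mul_smul, Matrix.trace_smul, smul_eq_mul]

theorem ip_sum_left {ι : Type} (s : Finset ι) (f : ι → Matrix n n ℂ) (z : Matrix n n ℂ) :
    ip (∑ i ∈ s, f i) z = ∑ i ∈ s, ip (f i) z := by
  unfold ip
  rw [Finset.sum_mul, Matrix.trace_sum]

theorem ip_sum_right {ι : Type} (s : Finset ι) (f : ι → Matrix n n ℂ) (z : Matrix n n ℂ) :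
    ip z (∑ i ∈ s, f i) = ∑ i ∈ s, ip z (f i) := by
  unfold ip
  rw [Matrix.conjTranspose_sum, Finset.mul_sum, Matrix.trace_sum]

theorem ip_self (x : Matrix n n ℂ) : ip x x = ((∑ i, ∑ j, ‖x i j‖ ^ 2 : ℝ) : ℂ) := by
  unfold ip
  simp only [Matrix.trace, Matrix.diag_apply, Matrix.mul_apply, Matrix.conjTranspose_apply]
  push_cast
  refine Finset.sum_congr rfl fun i _ => Finset.sum_congr rfl fun j _ => ?_
  exact RCLike.mul_conj (x i j)

theorem ip_self_re (x : Matrix n n ℂ) : 0 ≤ (ip x x).re := by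
  rw [ip_self, Complex.ofReal_re]
  positivity

open scoped ComplexOrder in
theorem eq_zero_of_ip {x : Matrix n n ℂ} (h : ip x x = 0) : x = 0 :=
  Matrix.trace_mul_conjTranspose_self_eq_zero_iff.1 h

theorem eq_zero_of_ip_re {x : Matrix n n ℂ} (h : (ip x x).re = 0) : x = 0 := by
  apply eq_zero_of_ip
  rw [ip_self] at h ⊢
  rw [Complex.ofReal_re] at h
  rw [h, Complex.ofReal_zero]

/-- the adjoint of `ad z` is `ad zᴴ` -/
theorem ip_ad (z x y : Matrix n n ℂ) : ip (z * x - x * z) y = ip x (zᴴ * y - y * zᴴ) := by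
  unfold ip
  rw [Matrix.conjTranspose_sub, Matrix.conjTranspose_mul, Matrix.conjTranspose_mul,
    Matrix.conjTranspose_conjTranspose, Matrix.sub_mul, Matrix.mul_sub, Matrix.trace_sub,
    Matrix.trace_sub, Matrix.mul_assoc z x yᴴ, Matrix.trace_mul_comm z, Matrix.mul_assoc x yᴴ z,
    Matrix.mul_assoc x z yᴴ]

/-- the distance to the span of an orthogonal system -/
theorem ip_proj {d : ℕ} (u : Fin d → Matrix n n ℂ) {lam : ℝ} (hlam : 0 < lam)
    (horth : ∀ i j, ip (u i) (u j) = if i = j then (lam : ℂ) else 0) (a : Matrix n n ℂ) :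
    ip (a - ∑ j, (ip a (u j) / lam) • u j) (a - ∑ j, (ip a (u j) / lam) • u j) =
      ip a a - (∑ j, ip a (u j) * star (ip a (u j))) / lam := by
  have hl : (lam : ℂ) ≠ 0 := by exact_mod_cast hlam.ne'
  have h1 : ip a (∑ j, (ip a (u j) / lam) • u j) = (∑ j, ip a (u j) * star (ip a (u j))) / lam := by
    rw [ip_sum_right, Finset.sum_div]
    refine Finset.sum_congr rfl fun j _ => ?_
    rw [ip_smul_right, star_div₀]
    have : star (lam : ℂ) = lam := Complex.conj_ofReal lam
    rw [this]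
    ring
  have h2 : ip (∑ j, (ip a (u j) / lam) • u j) a = (∑ j, ip a (u j) * star (ip a (u j))) / lam := by
    rw [ip_sum_left, Finset.sum_div]
    refine Finset.sum_congr rfl fun j _ => ?_
    rw [ip_smul_left, ip_conj]
    ring
  have h3 : ip (∑ j, (ip a (u j) / lam) • u j) (∑ j, (ip a (u j) / lam) • u j) =
      (∑ j, ip a (u j) * star (ip a (u j))) / lam := by
    rw [ip_sum_left, Finset.sum_div]
    refine Finset.sum_congr rfl fun j _ => ?_
    rw [ip_smul_left, ip_sum_right]
    have : ∑ k, ip (u j) ((ip a (u k) / lam) • u k) = star (ip a (u j)) := by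
      have h4 : ∀ k, ip (u j) ((ip a (u k) / lam) • u k) =
          if j = k then star (ip a (u k)) else 0 := by
        intro k
        rw [ip_smul_right, horth, star_div₀]
        have : star (lam : ℂ) = lam := Complex.conj_ofReal lam
        rw [this]
        by_cases hjk : j = k
        · rw [if_pos hjk, if_pos hjk]
          field_simp
        · rw [if_neg hjk, if_neg hjk, mul_zero]
      rw [Finset.sum_congr rfl fun k _ => h4 k, Finset.sum_ite_eq]
      simp
    rw [this]
    ring
  rw [ip_sub_left, ip_sub_right, ip_sub_right, h1, h2, h3]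
  ring

/-- an element of the span is equal to its projection -/
theorem proj_eq {d : ℕ} (u : Fin d → Matrix n n ℂ) {lam : ℝ} (hlam : 0 < lam)
    (horth : ∀ i j, ip (u i) (u j) = if i = j then (lam : ℂ) else 0) {a : Matrix n n ℂ}
    (ha : a ∈ Submodule.span ℂ (Set.range u)) : a = ∑ j, (ip a (u j) / lam) • u j := by
  have hl : (lam : ℂ) ≠ 0 := by exact_mod_cast hlam.ne'
  rw [Submodule.mem_span_range_iff_exists_fun] at ha
  obtain ⟨c, rfl⟩ := ha
  refine Finset.sum_congr rfl fun j _ => ?_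
  congr 1
  rw [ip_sum_left]
  have h1 : ∀ i, ip (c i • u i) (u j) = if i = j then c i * lam else 0 := by
    intro i
    rw [ip_smul_left, horth]
    by_cases h : i = j
    · rw [if_pos h, if_pos h]
    · rw [if_neg h, if_neg h, mul_zero]
  rw [Finset.sum_congr rfl fun i _ => h1 i, Finset.sum_ite_eq']
  simp only [Finset.mem_univ, if_true]
  field_simp

/-- the moment identity -/
theorem moment (z v : Matrix n n ℂ) :
    ip (zᴴ * v - v * zᴴ) (zᴴ * v - v * zᴴ) - ip (z * v - v * z) (z * v - v * z) =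
      ((v * vᴴ - vᴴ * v) * (z * zᴴ - zᴴ * z)).trace := by
  unfold ip
  simp only [Matrix.conjTranspose_sub, Matrix.conjTranspose_mul, Matrix.conjTranspose_conjTranspose]
  generalize vᴴ = vs
  generalize zᴴ = zs
  simp only [Matrix.sub_mul, Matrix.mul_sub, Matrix.trace_sub]
  have t1 : (zs * v * (vs * z)).trace = (v * vs * (z * zs)).trace := by
    rw [Matrix.mul_assoc, Matrix.trace_mul_comm]
    simp only [Matrix.mul_assoc]
  have t2 : (v * zs * (z * vs)).trace = (vs * v * (zs * z)).trace := by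
    rw [← Matrix.mul_assoc (v * zs), Matrix.trace_mul_comm _ vs]
    simp only [Matrix.mul_assoc]
  have t3 : (z * v * (vs * zs)).trace = (v * vs * (zs * z)).trace := by
    rw [Matrix.mul_assoc, Matrix.trace_mul_comm]
    simp only [Matrix.mul_assoc]
  have t4 : (v * z * (zs * vs)).trace = (vs * v * (z * zs)).trace := by
    rw [← Matrix.mul_assoc (v * z), Matrix.trace_mul_comm _ vs]
    simp only [Matrix.mul_assoc]
  have t7 : (zs * v * (z * vs)).trace = (v * z * (vs * zs)).trace := by
    rw [Matrix.mul_assoc, Matrix.trace_mul_comm]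
    simp only [Matrix.mul_assoc]
  have t8 : (v * zs * (vs * z)).trace = (z * v * (zs * vs)).trace := by
    rw [← Matrix.mul_assoc (v * zs), Matrix.trace_mul_comm _ z]
    simp only [Matrix.mul_assoc]
  linear_combination t1 + t2 - t3 - t4 - t7 - t8

end ip

theorem lim2 : K3 := by
  intro n _ _ d u lam hlam horth' hmom hlie _ hab
  have horth : ∀ i j, ip (u i) (u j) = if i = j then (lam : ℂ) else 0 := horth'
  set U : Submodule ℂ (Matrix n n ℂ) := Submodule.span ℂ (Set.range u) with hU
  have huU : ∀ i, u i ∈ U := fun i => Submodule.subset_span ⟨i, rfl⟩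
  -- `U` is a Lie algebra
  have hlie1 : ∀ i, ∀ y ∈ U, u i * y - y * u i ∈ U := by
    intro i y hy
    refine Submodule.span_induction (p := fun y _ => u i * y - y * u i ∈ U) ?_ ?_ ?_ ?_ hy
    · rintro _ ⟨j, rfl⟩
      exact hlie i j
    · rw [mul_zero, zero_mul, sub_zero]
      exact U.zero_mem
    · intro a b _ _ ha hb
      have e : u i * (a + b) - (a + b) * u i = (u i * a - a * u i) + (u i * b - b * u i) := by
        rw [mul_add, add_mul]
        abel
      rw [e]
      exact U.add_mem ha hb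
    · intro c a _ ha
      have e : u i * (c • a) - (c • a) * u i = c • (u i * a - a * u i) := by
        rw [Matrix.mul_smul, Matrix.smul_mul, smul_sub]
      rw [e]
      exact U.smul_mem c ha
  have hL : ∀ x ∈ U, ∀ y ∈ U, x * y - y * x ∈ U := by
    intro x hx y hy
    refine Submodule.span_induction (p := fun x _ => x * y - y * x ∈ U) ?_ ?_ ?_ ?_ hx
    · rintro _ ⟨j, rfl⟩
      exact hlie1 j y hy
    · rw [mul_zero, zero_mul, sub_zero]
      exact U.zero_mem
    · intro a b _ _ ha hb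
      have e : (a + b) * y - y * (a + b) = (a * y - y * a) + (b * y - y * b) := by
        rw [mul_add, add_mul]
        abel
      rw [e]
      exact U.add_mem ha hb
    · intro c a _ ha
      have e : (c • a) * y - y * (c • a) = c • (a * y - y * a) := by
        rw [Matrix.mul_smul, Matrix.smul_mul, smul_sub]
      rw [e]
      exact U.smul_mem c ha
  -- the adjoints of the elements of `U` normalize `U`
  have hN1 : ∀ z ∈ U, ∀ i, zᴴ * u i - u i * zᴴ ∈ U := by
    intro z hz
    set a : Fin d → Matrix n n ℂ := fun i => zᴴ * u i - u i * zᴴ with ha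
    set b : Fin d → Matrix n n ℂ := fun i => z * u i - u i * z with hb
    set w : Fin d → Matrix n n ℂ := fun i => a i - ∑ j, (ip (a i) (u j) / lam) • u j with hw
    have hbU : ∀ i, b i ∈ U := fun i => hL z hz (u i) (huU i)
    have hab1 : ∀ i j, ip (a i) (u j) = star (ip (b j) (u i)) := by
      intro i j
      have h1 := ip_ad zᴴ (u i) (u j)
      rw [Matrix.conjTranspose_conjTranspose] at h1
      rw [ip_conj]
      exact h1
    have hpars : ∀ j, ip (b j) (b j) = (∑ i, ip (b j) (u i) * star (ip (b j) (u i))) / lam := by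
      intro j
      have h1 := ip_proj u hlam horth (b j)
      rw [← proj_eq u hlam horth (hbU j), sub_self] at h1
      have h2 : ip (0 : Matrix n n ℂ) 0 = 0 := by
        unfold ip
        simp
      rw [h2] at h1
      linear_combination -h1
    have hsumw : ∑ i, ip (w i) (w i) = ∑ i, ip (a i) (a i) - ∑ i, ip (b i) (b i) := by
      rw [Finset.sum_congr rfl fun i _ => ip_proj u hlam horth (a i), Finset.sum_sub_distrib]
      congr 1
      rw [Finset.sum_congr rfl fun j _ => hpars j, ← Finset.sum_div, ← Finset.sum_div, Finset.sum_comm]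
      congr 1
      refine Finset.sum_congr rfl fun j _ => Finset.sum_congr rfl fun i _ => ?_
      rw [hab1, star_star]
      ring
    have hdiff : ∀ i, ip (a i) (a i) - ip (b i) (b i) =
        ((u i * (u i)ᴴ - (u i)ᴴ * u i) * (z * zᴴ - zᴴ * z)).trace := fun i => moment z (u i)
    have hzero : ∑ i, ip (w i) (w i) = 0 := by
      rw [hsumw, ← Finset.sum_sub_distrib, Finset.sum_congr rfl fun i _ => hdiff i, ← Matrix.trace_sum,
        ← Finset.sum_mul, hmom, Matrix.zero_mul, Matrix.trace_zero]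
    have hre : ∑ i, (ip (w i) (w i)).re = 0 := by
      rw [← Complex.re_sum, hzero, Complex.zero_re]
    intro i
    have hwi : (ip (w i) (w i)).re = 0 :=
      (Finset.sum_eq_zero_iff_of_nonneg fun i _ => ip_self_re (w i)).1 hre i (Finset.mem_univ i)
    have hwi0 := eq_zero_of_ip_re hwi
    have : a i = ∑ j, (ip (a i) (u j) / lam) • u j := sub_eq_zero.1 hwi0
    show a i ∈ U
    rw [this]
    exact U.sum_mem fun j _ => U.smul_mem _ (huU j)
  have hN : ∀ z ∈ U, ∀ y ∈ U, y * zᴴ - zᴴ * y ∈ U := by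
    intro z hz y hy
    refine Submodule.span_induction (p := fun y _ => y * zᴴ - zᴴ * y ∈ U) ?_ ?_ ?_ ?_ hy
    · rintro _ ⟨j, rfl⟩
      have := U.neg_mem (hN1 z hz j)
      rwa [neg_sub] at this
    · rw [mul_zero, zero_mul, sub_zero]
      exact U.zero_mem
    · intro a b _ _ ha hb
      have e : (a + b) * zᴴ - zᴴ * (a + b) = (a * zᴴ - zᴴ * a) + (b * zᴴ - zᴴ * b) := by
        rw [mul_add, add_mul]
        abel
      rw [e]
      exact U.add_mem ha hb
    · intro c a _ ha
      have e : (c • a) * zᴴ - zᴴ * (c • a) = c • (a * zᴴ - zᴴ * a) := by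
        rw [Matrix.mul_smul, Matrix.smul_mul, smul_sub]
      rw [e]
      exact U.smul_mem c ha
  -- the star closed part
  let I : Submodule ℂ (Matrix n n ℂ) :=
    { carrier := {y | y ∈ U ∧ yᴴ ∈ U}
      zero_mem' := ⟨U.zero_mem, by rw [Matrix.conjTranspose_zero]; exact U.zero_mem⟩
      add_mem' := fun {x y} hx hy => ⟨U.add_mem hx.1 hy.1, by
        rw [Matrix.conjTranspose_add]; exact U.add_mem hx.2 hy.2⟩
      smul_mem' := fun c x hx => ⟨U.smul_mem c hx.1, by
        rw [Matrix.conjTranspose_smul]; exact U.smul_mem _ hx.2⟩ }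
  have hI : ∀ y, y ∈ I ↔ y ∈ U ∧ yᴴ ∈ U := fun y => Iff.rfl
  have hcI : ∀ x ∈ U, ∀ y ∈ U, x * yᴴ - yᴴ * x ∈ I := by
    intro x hx y hy
    refine ⟨hN y hy x hx, ?_⟩
    rw [Matrix.conjTranspose_sub, Matrix.conjTranspose_mul, Matrix.conjTranspose_mul,
      Matrix.conjTranspose_conjTranspose]
    exact hN x hx y hy
  have hIid : ∀ x ∈ U, ∀ y ∈ I, x * y - y * x ∈ I := by
    intro x hx y hy
    have := hcI x hx yᴴ hy.2
    rwa [Matrix.conjTranspose_conjTranspose] at this
  let J : Submodule ℂ (Matrix n n ℂ) :=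
    { carrier := {x | x ∈ U ∧ ∀ y ∈ I, (x * y).trace = 0}
      zero_mem' := ⟨U.zero_mem, fun y _ => by rw [Matrix.zero_mul, Matrix.trace_zero]⟩
      add_mem' := fun {a b} ha hb => ⟨U.add_mem ha.1 hb.1, fun y hy => by
        rw [Matrix.add_mul, Matrix.trace_add, ha.2 y hy, hb.2 y hy, add_zero]⟩
      smul_mem' := fun c a ha => ⟨U.smul_mem c ha.1, fun y hy => by
        rw [Matrix.smul_mul, Matrix.trace_smul, ha.2 y hy, smul_zero]⟩ }
  have hJid : ∀ x ∈ U, ∀ y ∈ J, x * y - y * x ∈ J := by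
    intro x hx y hy
    refine ⟨hL x hx y hy.1, fun w hw => ?_⟩
    have h1 := hy.2 _ (hIid x hx w hw)
    rw [Matrix.mul_sub, Matrix.trace_sub] at h1
    rw [Matrix.sub_mul, Matrix.trace_sub, Matrix.mul_assoc, Matrix.trace_mul_comm x,
      Matrix.mul_assoc y x w, Matrix.mul_assoc y w x]
    linear_combination -h1
  have hIJ : ∀ x, x ∈ I → x ∈ J → x = 0 := by
    intro x hxI hxJ
    have h1 : xᴴ ∈ I := ⟨hxI.2, by rw [Matrix.conjTranspose_conjTranspose]; exact hxI.1⟩
    exact eq_zero_of_ip (hxJ.2 _ h1)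
  have hcomm : ∀ w ∈ I, ∀ x ∈ J, w * x - x * w = 0 := by
    intro w hw x hx
    apply hIJ
    · have := I.neg_mem (hIid x hx.1 w hw)
      rwa [neg_sub] at this
    · exact hJid w hw.1 x hx
  have hstar0 : ∀ x ∈ J, ∀ y ∈ J, x * yᴴ - yᴴ * x = 0 := by
    intro x hx y hy
    have h1 := hcI x hx.1 y hy.1
    apply hIJ _ h1
    refine ⟨h1.1, fun w hw => ?_⟩
    have h2 := hcomm w hw x hx
    have h3 : (yᴴ * (w * x - x * w)).trace = 0 := by rw [h2, Matrix.mul_zero, Matrix.trace_zero]
    rw [Matrix.mul_sub, Matrix.trace_sub] at h3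
    rw [Matrix.sub_mul, Matrix.trace_sub, Matrix.mul_assoc x, Matrix.trace_mul_comm x,
      Matrix.mul_assoc yᴴ x w, Matrix.mul_assoc yᴴ w x]
    exact h3
  have hJab : ∀ x ∈ J, ∀ y ∈ J, x * y = y * x := by
    intro x hx y hy
    have h1 : x * y - y * x ∈ J := hJid x hx.1 y hy
    have h2 := hstar0 _ h1 x hx
    have h3 := ip_ad x y (x * y - y * x)
    have h4 : xᴴ * (x * y - y * x) - (x * y - y * x) * xᴴ = 0 := by
      rw [← neg_sub, h2, neg_zero]
    rw [h4] at h3
    have h5 : ip y (0 : Matrix n n ℂ) = 0 := by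
      unfold ip
      simp
    rw [h5] at h3
    exact sub_eq_zero.1 (eq_zero_of_ip h3)
  have hJ0 : J = ⊥ := hab J (fun x hx => hx.1) hJid hJab
  -- `U = I`
  let Θ : U →ₗ[ℂ] (I →ₗ[ℂ] ℂ) :=
    { toFun := fun x =>
        { toFun := fun y => ((x : Matrix n n ℂ) * (y : Matrix n n ℂ)).trace
          map_add' := fun y z => by
            rw [Submodule.coe_add, Matrix.mul_add, Matrix.trace_add]
          map_smul' := fun c y => by
            rw [Submodule.coe_smul, Matrix.mul_smul, Matrix.trace_smul]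
            rfl }
      map_add' := fun x x' => by
        ext y
        show (((x + x' : U) : Matrix n n ℂ) * (y : Matrix n n ℂ)).trace =
          ((x : Matrix n n ℂ) * (y : Matrix n n ℂ)).trace + ((x' : Matrix n n ℂ) * (y : Matrix n n ℂ)).trace
        rw [Submodule.coe_add, Matrix.add_mul, Matrix.trace_add]
      map_smul' := fun c x => by
        ext y
        show (((c • x : U) : Matrix n n ℂ) * (y : Matrix n n ℂ)).trace =
          c • ((x : Matrix n n ℂ) * (y : Matrix n n ℂ)).trace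
        rw [Submodule.coe_smul, Matrix.smul_mul, Matrix.trace_smul] }
  have hΘ : Function.Injective Θ := by
    rw [← LinearMap.ker_eq_bot, LinearMap.ker_eq_bot']
    intro x hx
    have h1 : (x : Matrix n n ℂ) ∈ J := by
      refine ⟨x.2, fun y hy => ?_⟩
      have := LinearMap.congr_fun hx ⟨y, hy⟩
      exact this
    rw [hJ0, Submodule.mem_bot] at h1
    exact Subtype.ext h1
  have hfin : finrank ℂ U ≤ finrank ℂ I := by
    have h1 := LinearMap.finrank_le_finrank_of_injective hΘ
    have h2 : finrank ℂ (I →ₗ[ℂ] ℂ) = finrank ℂ I := Subspace.dual_finrank_eq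
    rwa [h2] at h1
  have hIU : I = U := Submodule.eq_of_le_of_finrank_le (fun x hx => hx.1) hfin
  intro i
  have h1 : u i ∈ I := by
    rw [hIU]
    exact huU i
  exact h1.2

end Pool.Agent.E8helper55.TW
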